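import Mathlib
import Pool.Agent.R46.TreeMetric

/-!
# The value of the leaf-removal game on two-coloured trees

For every finite tree with an arbitrary black/white colouring, the value of the leaf-removal game
is the number of white vertices minus the number of black vertices among the vertices that are
not *sealed*.  A vertex `v` is sealed if the tree contains a path `z, y, x, …, v, …, x', y', z'`
(`x`, `v`, `x'` need not be distinct) such that `x, y` have the same colour and `z` the other
colour, and `x', y'` have the same colour and `z'` the other colour.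
-/

namespace Pool.Agent.Results.MP_1304b2_co.SealedFormula

open SimpleGraph Classical

/-! ### Games -/

/-- Partizan games: a game is given by its Left options `L` and its Right options `R`. -/
inductive PG : Type 1
  | mk (α β : Type) (L : α → PG) (R : β → PG) : PG

/-- Conway's recursive definition of `x ≤ y` (first component), simultaneously with `x ⧏ y`, which means that
`y ≤ x` does not hold (second component): `x ≤ y` iff `xᴸ ⧏ y` for all Left options `xᴸ` and `x ⧏ yᴿ` for
all Right options `yᴿ`; `x ⧏ y` iff `x ≤ yᴸ` for some `yᴸ` or `xᴿ ≤ y` for some `xᴿ`. -/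
noncomputable def leLf : PG → PG → Prop × Prop := fun x =>
  PG.rec (motive := fun _ => PG → Prop × Prop)
    (fun _ _ _ _ IHxL IHxR => fun y =>
      PG.rec (motive := fun _ => Prop × Prop)
        (fun yα yβ yL yR IHyL IHyR =>
          ((∀ i, (IHxL i (PG.mk yα yβ yL yR)).2) ∧ (∀ j, (IHyR j).2),
            (∃ i, (IHyL i).1) ∨ (∃ j, (IHxR j (PG.mk yα yβ yL yR)).1))) y) x

/-- `x ≤ y` -/
def Le (x y : PG) : Prop := (leLf x y).1

/-- `x ⧏ y` -/
def Lf (x y : PG) : Prop := (leLf x y).2

theorem le_mk {xα xβ yα yβ : Type} {xL : xα → PG} {xR : xβ → PG} {yL : yα → PG} {yR : yβ → PG} :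
    Le (.mk xα xβ xL xR) (.mk yα yβ yL yR) ↔
      (∀ i, Lf (xL i) (.mk yα yβ yL yR)) ∧ (∀ j, Lf (.mk xα xβ xL xR) (yR j)) := Iff.rfl

theorem lf_mk {xα xβ yα yβ : Type} {xL : xα → PG} {xR : xβ → PG} {yL : yα → PG} {yR : yβ → PG} :
    Lf (.mk xα xβ xL xR) (.mk yα yβ yL yR) ↔
      (∃ i, Le (.mk xα xβ xL xR) (yL i)) ∨ (∃ j, Le (xR j) (.mk yα yβ yL yR)) := Iff.rfl

/-- `x ⧏ y` is indeed the negation of `y ≤ x`. -/
theorem lf_iff_not_le : ∀ x y : PG, (Lf x y ↔ ¬ Le y x) ∧ (Lf y x ↔ ¬ Le x y) := by
  intro x
  induction x with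
  | mk xα xβ xL xR ihL ihR =>
    intro y
    induction y with
    | mk yα yβ yL yR jhL jhR =>
      constructor
      · rw [lf_mk, le_mk, not_and_or, not_forall, not_forall]
        refine or_congr ?_ ?_
        · exact exists_congr fun i => by rw [(jhL i).2, not_not]
        · exact exists_congr fun j => by rw [(ihR j _).2, not_not]
      · rw [lf_mk, le_mk, not_and_or, not_forall, not_forall]
        constructor
        · rintro (⟨i, hi⟩ | ⟨j, hj⟩)
          · exact Or.inl ⟨i, by rw [(ihL i _).1, not_not]; exact hi⟩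
          · exact Or.inr ⟨j, by rw [(jhR j).1, not_not]; exact hj⟩
        · rintro (⟨i, hi⟩ | ⟨j, hj⟩)
          · exact Or.inl ⟨i, by rw [(ihL i _).1, not_not] at hi; exact hi⟩
          · exact Or.inr ⟨j, by rw [(jhR j).1, not_not] at hj; exact hj⟩

/-- Equality of games in Conway's sense. -/
def Equal (x y : PG) : Prop := Le x y ∧ Le y x

/-- The game `n = {n - 1 | }`. -/
def natGame : ℕ → PG
  | 0 => .mk Empty Empty Empty.elim Empty.elim
  | n + 1 => .mk Unit Empty (fun _ => natGame n) Empty.elim

/-- The game `-n = { | -n + 1}`. -/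
def negGame : ℕ → PG
  | 0 => .mk Empty Empty Empty.elim Empty.elim
  | n + 1 => .mk Empty Unit Empty.elim (fun _ => negGame n)

/-- The integer games. -/
def intGame : ℤ → PG
  | Int.ofNat n => natGame n
  | Int.negSucc n => negGame (n + 1)

section Tree

variable {V : Type} (G : SimpleGraph V) (white : V → Prop)

/-- `v` is a leaf of the tree induced on `S`: it has at most one neighbour in `S`. -/
def IsLeaf (S : Finset V) (v : V) : Prop :=
  v ∈ S ∧ ∀ a ∈ S, ∀ b ∈ S, G.Adj v a → G.Adj v b → a = b

/-- The leaf-removal game on the tree induced by `G` on `S`: Left = White deletes a white leaf,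
Right = Black deletes a black leaf. -/
noncomputable def leafGame (S : Finset V) : PG :=
  .mk {v // IsLeaf G S v ∧ white v} {v // IsLeaf G S v ∧ ¬ white v}
    (fun v => leafGame (S.erase v.1)) (fun v => leafGame (S.erase v.1))
termination_by S.card
decreasing_by
  · exact Finset.card_erase_lt_of_mem v.2.1.1
  · exact Finset.card_erase_lt_of_mem v.2.1.1

/-- The directed edge `y → x` is blocked: `x`, `y` have the same colour and `y` has a neighbour
of the other colour (all vertices in `S`). -/
def Blocked (S : Finset V) (y x : V) : Prop :=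
  y ∈ S ∧ x ∈ S ∧ G.Adj y x ∧ (white y ↔ white x) ∧ ∃ z ∈ S, G.Adj z y ∧ ¬ (white z ↔ white y)

/-- `v` is sealed: there are blocked edges `y → x` and `y' → x'` such that `y, x, v, x', y'` lie in
this order on a path of the tree (`x = v` or `v = x'` are allowed): the distance of `y` and `y'`
is `1 + d(x, v) + d(v, x') + 1`. -/
def Sealed (S : Finset V) (v : V) : Prop :=
  ∃ y x y' x', Blocked G white S y x ∧ Blocked G white S y' x' ∧
    G.dist y y' = G.dist x v + G.dist v x' + 2

/-- The number of white minus the number of black vertices of `S` that are not sealed. -/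
noncomputable def value (S : Finset V) : ℤ :=
  ((S.filter fun v => ¬ Sealed G white S v ∧ white v).card : ℤ) -
    (S.filter fun v => ¬ Sealed G white S v ∧ ¬ white v).card

/-! ### Combinatorics of sealed vertices -/

open Pool.Agent.R46.TreeMetric

variable {G} {white}

/-- the blocked edge `y → x` points to `u` -/
def Ray (G : SimpleGraph V) (white : V → Prop) (S : Finset V) (y x u : V) : Prop :=
  Blocked G white S y x ∧ G.dist y u = G.dist x u + 1

/-- distances to adjacent vertices differ by at most one -/
theorem near (hG : G.IsTree) {a b : V} (h : G.Adj a b) (c : V) : G.dist a c ≤ G.dist b c + 1 := by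
  have h1 : G.dist a c ≤ G.dist a b + G.dist b c := hG.connected.dist_triangle
  rw [dist_eq_one_iff_adj.2 h] at h1
  omega

theorem sealed_iff (hG : G.IsTree) {S : Finset V} {u : V} :
    Sealed G white S u ↔ ∃ y x y' x', Ray G white S y x u ∧ Ray G white S y' x' u ∧
      G.dist y y' = G.dist y u + G.dist y' u := by
  constructor
  · rintro ⟨y, x, y', x', h1, h2, h3⟩
    have t : G.dist y y' ≤ G.dist y u + G.dist u y' := hG.connected.dist_triangle
    have a := near hG h1.2.2.1 u
    have b := near hG h2.2.2.1 u
    rw [G.dist_comm (u := u) (v := y')] at t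
    rw [G.dist_comm (u := u) (v := x')] at h3
    exact ⟨y, x, y', x', ⟨h1, by omega⟩, ⟨h2, by omega⟩, by omega⟩
  · rintro ⟨y, x, y', x', ⟨h1, h1'⟩, ⟨h2, h2'⟩, h3⟩
    refine ⟨y, x, y', x', h1, h2, ?_⟩
    rw [G.dist_comm (u := u) (v := x')]
    omega

theorem Ray.passes (hG : G.IsTree) {S : Finset V} {y x u v : V} (h : Ray G white S y x u)
    (hv : G.dist y v = G.dist y u + G.dist u v) : Ray G white S y x v := by
  refine ⟨h.1, ?_⟩
  have h1 : G.dist x v ≤ G.dist x u + G.dist u v := hG.connected.dist_triangle
  have h2 := near hG h.1.2.2.1 v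
  have h3 := h.2
  omega

theorem Blocked.mono {S S' : Finset V} (hS : S' ⊆ S) {y x : V} (h : Blocked G white S' y x) :
    Blocked G white S y x := by
  obtain ⟨h1, h2, h3, h4, z, hz, h5, h6⟩ := h
  exact ⟨hS h1, hS h2, h3, h4, z, hS hz, h5, h6⟩

theorem Sealed.mono {S S' : Finset V} (hS : S' ⊆ S) {v : V} (h : Sealed G white S' v) :
    Sealed G white S v := by
  obtain ⟨y, x, y', x', h1, h2, h3⟩ := h
  exact ⟨y, x, y', x', h1.mono hS, h2.mono hS, h3⟩

theorem blocked_compl {S : Finset V} {y x : V} :
    Blocked G (fun v => ¬ white v) S y x ↔ Blocked G white S y x := by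
  unfold Blocked
  simp only [not_iff_not]

theorem sealed_compl {S : Finset V} {v : V} :
    Sealed G (fun v => ¬ white v) S v ↔ Sealed G white S v := by
  unfold Sealed
  simp only [blocked_compl]

theorem value_compl {S : Finset V} : value G (fun v => ¬ white v) S = - value G white S := by
  unfold value
  simp only [sealed_compl, not_not]
  ring

/-- `S` induces a subtree. -/
def Conn (G : SimpleGraph V) (S : Finset V) : Prop :=
  ∀ u ∈ S, ∀ v ∈ S, u ≠ v → ∃ w ∈ S, G.Adj u w ∧ G.dist u v = G.dist w v + 1

theorem conn_univ [Fintype V] (hG : G.IsTree) : Conn G Finset.univ := by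
  intro u _ v _ h
  obtain ⟨c, h1, h2⟩ := exists_closer hG h
  exact ⟨c, Finset.mem_univ _, h1, h2⟩

section Leaf

variable {S : Finset V} {v₀ y₀ : V}

theorem leaf_dist (hS : Conn G S) (hl : IsLeaf G S v₀) (hy : y₀ ∈ S) (hadj : G.Adj v₀ y₀) {u : V}
    (hu : u ∈ S) (huv : u ≠ v₀) : G.dist v₀ u = G.dist y₀ u + 1 := by
  obtain ⟨w, hw, h1, h2⟩ := hS v₀ hl.1 u hu huv.symm
  have := hl.2 w hw y₀ hy h1 hadj
  rw [← this]; exact h2

theorem conn_erase (hS : Conn G S) (hl : IsLeaf G S v₀) : Conn G (S.erase v₀) := by
  intro u hu v hv huv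
  rw [Finset.mem_erase] at hu hv
  obtain ⟨w, hw, h1, h2⟩ := hS u hu.2 v hv.2 huv
  refine ⟨w, ?_, h1, h2⟩
  rw [Finset.mem_erase]
  refine ⟨?_, hw⟩
  rintro rfl
  have := leaf_dist hS hl hu.2 h1.symm hv.2 hv.1
  omega

theorem not_sealed_leaf (hG : G.IsTree) (hS : Conn G S) (hl : IsLeaf G S v₀) :
    ¬ Sealed G white S v₀ := by
  rw [sealed_iff hG]
  rintro ⟨y, x, y', x', h1, h2, h3⟩
  have hy : y ≠ v₀ := by
    rintro rfl
    have := h1.2
    rw [dist_self] at this
    omega
  have hy' : y' ≠ v₀ := by
    rintro rfl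
    have := h2.2
    rw [dist_self] at this
    omega
  obtain ⟨w, hw, a1, a2⟩ := hS v₀ hl.1 y h1.1.1 hy.symm
  have b1 := leaf_dist hS hl hw a1 h1.1.1 hy
  have b2 := leaf_dist hS hl hw a1 h2.1.1 hy'
  have t : G.dist y y' ≤ G.dist y w + G.dist w y' := hG.connected.dist_triangle
  rw [G.dist_comm (u := y) (v := w)] at t
  rw [G.dist_comm (u := y) (v := v₀), G.dist_comm (u := y') (v := v₀)] at h3
  omega

/-- the critical case: `v₀` is the only neighbour of `y₀` with the other colour -/
def Crit (G : SimpleGraph V) (white : V → Prop) (S : Finset V) (v₀ y₀ : V) : Prop :=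
  ¬ (white v₀ ↔ white y₀) ∧ ∀ z ∈ S, G.Adj z y₀ → z ≠ v₀ → (white z ↔ white y₀)

/-- A ray of `S` pointing to `u ≠ v₀` survives, unless it starts at `y₀` and we are in the
critical case. -/
theorem ray_survives (hS : Conn G S) (hl : IsLeaf G S v₀) (hy : y₀ ∈ S)
    (hadj : G.Adj v₀ y₀) {y x u : V} (hu : u ∈ S) (huv : u ≠ v₀) (h : Ray G white S y x u) :
    Ray G white (S.erase v₀) y x u ∨ (y = y₀ ∧ Crit G white S v₀ y₀) := by
  obtain ⟨⟨h1, h2, h3, h4, z, hz, h5, h6⟩, h7⟩ := h
  have hx : x ≠ v₀ := by
    rintro rfl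
    have e := hl.2 y h1 y₀ hy h3.symm hadj
    subst e
    have := leaf_dist hS hl hy hadj hu huv
    omega
  have hy0 : y ≠ v₀ := by
    rintro rfl
    have e := hl.2 x h2 y₀ hy h3 hadj
    have e' := hl.2 z hz y₀ hy h5.symm hadj
    subst e; subst e'
    exact h6 h4.symm
  by_cases hcr : ∃ z ∈ S, G.Adj z y ∧ ¬ (white z ↔ white y) ∧ z ≠ v₀
  · obtain ⟨z', hz', a1, a2, a3⟩ := hcr
    left
    exact ⟨⟨Finset.mem_erase.2 ⟨hy0, h1⟩, Finset.mem_erase.2 ⟨hx, h2⟩, h3, h4, z',
      Finset.mem_erase.2 ⟨a3, hz'⟩, a1, a2⟩, h7⟩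
  · right
    have hzv : z = v₀ := by
      by_contra hne
      exact hcr ⟨z, hz, h5, h6, hne⟩
    subst hzv
    have e := hl.2 y h1 y₀ hy h5 hadj
    subst e
    refine ⟨rfl, h6, ?_⟩
    intro z' hz' a1 a2
    by_contra a3
    exact hcr ⟨z', hz', a1, a3, a2⟩

theorem sealed_of_not_crit (hG : G.IsTree) (hS : Conn G S) (hl : IsLeaf G S v₀) (hy : y₀ ∈ S)
    (hadj : G.Adj v₀ y₀) (hcr : ¬ Crit G white S v₀ y₀) {u : V} (hu : u ∈ S) (huv : u ≠ v₀)
    (h : Sealed G white S u) : Sealed G white (S.erase v₀) u := by
  rw [sealed_iff hG] at h ⊢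
  obtain ⟨y, x, y', x', h1, h2, h3⟩ := h
  have a1 := (ray_survives hS hl hy hadj hu huv h1).resolve_right fun h => hcr h.2
  have a2 := (ray_survives hS hl hy hadj hu huv h2).resolve_right fun h => hcr h.2
  exact ⟨y, x, y', x', a1, a2, h3⟩

/-- the set of vertices that lose their seal -/
def Lost (G : SimpleGraph V) (white : V → Prop) (S : Finset V) (v₀ u : V) : Prop :=
  u ∈ S ∧ u ≠ v₀ ∧ Sealed G white S u ∧ ¬ Sealed G white (S.erase v₀) u

theorem lost_spec (hG : G.IsTree) (hS : Conn G S) (hl : IsLeaf G S v₀) (hy : y₀ ∈ S)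
    (hadj : G.Adj v₀ y₀) {u : V} (hu : Lost G white S v₀ u) :
    Crit G white S v₀ y₀ ∧ u ≠ y₀ ∧ (∃ x, Ray G white S y₀ x u) ∧
      ∃ y x, Ray G white (S.erase v₀) y x u ∧ G.dist y₀ y = G.dist y₀ u + G.dist u y := by
  obtain ⟨hu1, hu2, hu3, hu4⟩ := hu
  rw [sealed_iff hG] at hu3 hu4
  obtain ⟨y, x, y', x', h1, h2, h3⟩ := hu3
  have ne : ∀ {y x : V}, Ray G white S y x u → y ≠ u := by
    rintro y x h rfl
    have := h.2
    rw [dist_self] at this
    omega
  rcases ray_survives hS hl hy hadj hu1 hu2 h1 with a1 | ⟨rfl, hc⟩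
  · rcases ray_survives hS hl hy hadj hu1 hu2 h2 with a2 | ⟨rfl, hc⟩
    · exact absurd ⟨y, x, y', x', a1, a2, h3⟩ hu4
    · refine ⟨hc, (ne h2).symm, ⟨x', h2⟩, y, x, a1, ?_⟩
      rw [G.dist_comm (u := y') (v := y), h3, G.dist_comm (u := u) (v := y)]
      omega
  · rcases ray_survives hS hl hy hadj hu1 hu2 h2 with a2 | ⟨e, _⟩
    · refine ⟨hc, (ne h1).symm, ⟨x, h1⟩, y', x', a2, ?_⟩
      rw [h3, G.dist_comm (u := u) (v := y')]
    · exfalso
      subst e
      rw [dist_self] at h3
      have := h1.2
      omega

/-- Two rays towards `u` which are separated by `u` seal `u`. -/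
theorem sealed_of_rays (hG : G.IsTree) {S : Finset V} {y x y' x' u : V}
    (h1 : Ray G white S y x u) (h2 : Ray G white S y' x' u)
    (h3 : G.dist y y' = G.dist y u + G.dist u y') : Sealed G white S u := by
  rw [sealed_iff hG]
  refine ⟨y, x, y', x', h1, h2, ?_⟩
  rw [h3, G.dist_comm (u := u) (v := y')]

/-- `w` is the parent of `v` (towards `r`), `a` is not below `v` and `b` is below `v`. -/
theorem cross (hG : G.IsTree) {v w a b : V} (h : G.Adj v w)
    (ha : G.dist v a = G.dist w a + 1) (hb : G.dist w b = G.dist v b + 1) :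
    G.dist a b = G.dist a v + G.dist v b := by
  have := F2 hG h ha hb
  rw [this, G.dist_comm (u := a) (v := v), ha, G.dist_comm (u := a) (v := w)]

/-- if `v` is between `r` and `b` then `b` is below `v` -/
theorem below (hG : G.IsTree) {r v w b : V} (h : G.Adj v w) (hw : G.dist v r = G.dist w r + 1)
    (hb : G.dist r b = G.dist r v + G.dist v b) : G.dist w b = G.dist v b + 1 := by
  have t : G.dist r b ≤ G.dist r w + G.dist w b := hG.connected.dist_triangle
  have n := near hG h.symm b
  rw [G.dist_comm (u := r) (v := w)] at t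
  rw [G.dist_comm (u := r) (v := v)] at hb
  omega

theorem lost_aux (hG : G.IsTree) {v u w r : V} (h : G.Adj v w)
    (hw : G.dist v r = G.dist w r + 1) (hd : G.dist r v = G.dist r u) (hne : v ≠ u) :
    G.dist v u = G.dist w u + 1 := by
  rcases F1 hG h u with h1 | h1
  · exact h1
  · exfalso
    have e := cross hG h hw h1
    have : G.dist v u = 0 := by omega
    exact hne ((hG.connected.dist_eq_zero_iff).1 this)

theorem lost_unique (hG : G.IsTree) (hS : Conn G S) (hl : IsLeaf G S v₀) (hy : y₀ ∈ S)
    (hadj : G.Adj v₀ y₀) {u u' : V} (hu : Lost G white S v₀ u) (hu' : Lost G white S v₀ u')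
    (hd : G.dist y₀ u = G.dist y₀ u') : u = u' := by
  by_contra hne
  obtain ⟨_, huy, _, y1, x1, r1, b1⟩ := lost_spec hG hS hl hy hadj hu
  obtain ⟨_, huy', _, y2, x2, r2, b2⟩ := lost_spec hG hS hl hy hadj hu'
  obtain ⟨w, hw1, hw2⟩ := exists_closer hG huy
  obtain ⟨w', hw1', hw2'⟩ := exists_closer hG huy'
  have a1 := lost_aux hG hw1 hw2 hd hne
  have a2 := lost_aux hG hw1' hw2' hd.symm (Ne.symm hne)
  have c1 := below hG hw1 hw2 b1
  have c2 := below hG hw1' hw2' b2
  -- `u'` is between `u` and `y2`
  have e2 := cross hG hw1' a2 c2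
  have a3 : G.dist u y2 = G.dist w y2 + 1 := by
    rcases F1 hG hw1 y2 with h1 | h1
    · exact h1
    · exfalso
      have e3 := cross hG hw1 hw2 h1
      have e4 := cross hG hw1 a1 h1
      rw [G.dist_comm (u := u') (v := u)] at e4
      have : G.dist u u' = 0 := by omega
      exact hne ((hG.connected.dist_eq_zero_iff).1 this)
  have e5 := cross hG hw1 a3 c1
  refine hu.2.2.2 (sealed_of_rays hG r1 (r2.passes hG ?_) ?_)
  · rw [G.dist_comm (u := y2) (v := u), e2, G.dist_comm (u := u) (v := u'),
      G.dist_comm (u := u') (v := y2)]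
    omega
  · rw [G.dist_comm (u := y1) (v := y2), e5, G.dist_comm (u := y2) (v := u),
      G.dist_comm (u := y1) (v := u)]
    omega

theorem lost_parent (hG : G.IsTree) (hS : Conn G S) (hl : IsLeaf G S v₀) (hy : y₀ ∈ S)
    (hadj : G.Adj v₀ y₀) {u w : V} (hu : Lost G white S v₀ u) (hw : w ∈ S) (huw : G.Adj u w)
    (hd : G.dist u y₀ = G.dist w y₀ + 1) (hwy : w ≠ y₀) : Lost G white S v₀ w := by
  obtain ⟨_, huy, ⟨x, rx⟩, y1, x1, r1, b1⟩ := lost_spec hG hS hl hy hadj hu
  have c1 := below hG huw hd b1
  have wv : w ≠ v₀ := by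
    rintro rfl
    exact huy (hl.2 u hu.1 y₀ hy huw.symm hadj)
  refine ⟨hw, wv, ?_, ?_⟩
  · have r1w : Ray G white (S.erase v₀) y1 x1 w := r1.passes hG (by
      rw [G.dist_comm (u := y1) (v := w), c1, G.dist_comm (u := y1) (v := u),
        dist_eq_one_iff_adj.2 huw])
    have rxw : Ray G white S y₀ x w := by
      refine ⟨rx.1, ?_⟩
      rcases F1 hG rx.1.2.2.1 w with h1 | h1
      · exact h1
      · exfalso
        have h2 := rx.2
        have h3 : G.dist w x = G.dist u x + 1 := by
          rw [G.dist_comm (u := w) (v := x), G.dist_comm (u := u) (v := x)]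
          rw [G.dist_comm (u := u) (v := y₀), G.dist_comm (u := w) (v := y₀)] at hd
          omega
        have e := cross hG huw hd h3
        rw [dist_eq_one_iff_adj.2 rx.1.2.2.1] at e
        have h4 : G.dist w y₀ = 0 := by
          rw [G.dist_comm (u := y₀) (v := u)] at e
          omega
        exact hwy ((hG.connected.dist_eq_zero_iff).1 h4)
    refine sealed_of_rays hG rxw ⟨r1w.1.mono (Finset.erase_subset _ _), r1w.2⟩ ?_
    rw [b1, G.dist_comm (u := y₀) (v := u), G.dist_comm (u := y₀) (v := w)]
    omega
  · intro hsw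
    rw [sealed_iff hG] at hsw
    obtain ⟨a, b, a', b', s1, s2, s3⟩ := hsw
    have key : ∀ a b : V, Ray G white (S.erase v₀) a b w → G.dist u a = G.dist w a + 1 →
        False := by
      intro a b s1 h1
      refine hu.2.2.2 (sealed_of_rays hG (s1.passes hG ?_) r1 ?_)
      · rw [G.dist_comm (u := a) (v := u), h1, G.dist_comm (u := a) (v := w),
          dist_eq_one_iff_adj.2 huw.symm]
      · exact cross hG huw h1 c1
    rcases F1 hG huw a with h1 | h1
    · exact key a b s1 h1
    · rcases F1 hG huw a' with h2 | h2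
      · exact key a' b' s2 h2
      · have t : G.dist a a' ≤ G.dist a u + G.dist u a' := hG.connected.dist_triangle
        rw [G.dist_comm (u := a) (v := u)] at t
        rw [G.dist_comm (u := a) (v := w), G.dist_comm (u := a') (v := w)] at s3
        omega

theorem lost_color (hG : G.IsTree) (hS : Conn G S) (hl : IsLeaf G S v₀) (hy : y₀ ∈ S)
    (hadj : G.Adj v₀ y₀) (n : ℕ) : ∀ u : V, G.dist u y₀ = n → Lost G white S v₀ u →
      ¬ (white u ↔ white y₀) → ∃ w, G.Adj u w ∧ G.dist u y₀ = G.dist w y₀ + 1 ∧
        Lost G white S v₀ w ∧ (white w ↔ white y₀) := by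
  induction n using Nat.strong_induction_on with
  | _ n ih =>
    intro u hn hu hc
    obtain ⟨hcr, huy, _, y1, x1, r1, b1⟩ := lost_spec hG hS hl hy hadj hu
    obtain ⟨w, hwS, huw, hd⟩ := hS u hu.1 y₀ hy huy
    have hwy : w ≠ y₀ := by
      rintro rfl
      exact hc (hcr.2 u hu.1 huw hu.2.1)
    have hlw := lost_parent hG hS hl hy hadj hu hwS huw hd hwy
    refine ⟨w, huw, hd, hlw, ?_⟩
    by_contra hcw
    obtain ⟨w2, k1, k2, k3, k4⟩ := ih (G.dist w y₀) (by omega) w rfl hlw hcw
    have c1 := below hG huw hd b1
    have hb : Blocked G white (S.erase v₀) w u := by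
      refine ⟨Finset.mem_erase.2 ⟨hlw.2.1, hlw.1⟩, Finset.mem_erase.2 ⟨hu.2.1, hu.1⟩, huw.symm,
        by tauto, w2, Finset.mem_erase.2 ⟨k3.2.1, k3.1⟩, k1.symm, by tauto⟩
    refine hu.2.2.2 (sealed_of_rays hG (u := u) ⟨hb, ?_⟩ r1 ?_)
    · rw [dist_self, dist_eq_one_iff_adj.2 huw.symm]
    · rw [c1, dist_eq_one_iff_adj.2 huw.symm]
      omega

theorem lost_card (hG : G.IsTree) (hS : Conn G S) (hl : IsLeaf G S v₀) (hy : y₀ ∈ S)
    (hadj : G.Adj v₀ y₀) :
    (S.filter fun u => Lost G white S v₀ u ∧ ¬ (white u ↔ white y₀)).card ≤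
      (S.filter fun u => Lost G white S v₀ u ∧ (white u ↔ white y₀)).card := by
  refine Finset.card_le_card_of_forall_subsingleton
    (fun u w => G.Adj u w ∧ G.dist u y₀ = G.dist w y₀ + 1) ?_ ?_
  · intro u hu
    rw [Finset.mem_filter] at hu
    obtain ⟨w, h1, h2, h3, h4⟩ := lost_color hG hS hl hy hadj _ u rfl hu.2.1 hu.2.2
    exact ⟨w, Finset.mem_filter.2 ⟨h3.1, h3, h4⟩, h1, h2⟩
  · intro w _ u hu u' hu'
    simp only [Set.mem_ofPred_eq, Finset.mem_filter] at hu hu'
    refine lost_unique hG hS hl hy hadj hu.1.2.1 hu'.1.2.1 ?_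
    rw [G.dist_comm (u := y₀) (v := u), G.dist_comm (u := y₀) (v := u')]
    omega

/-- How the value changes when a white leaf is deleted. -/
theorem value_erase (hG : G.IsTree) (hS : Conn G S) (hl : IsLeaf G S v₀) (hw : white v₀) :
    value G white (S.erase v₀) = value G white S - 1 +
      (S.filter fun u => Lost G white S v₀ u ∧ white u).card -
      (S.filter fun u => Lost G white S v₀ u ∧ ¬ white u).card := by
  have hns := not_sealed_leaf (white := white) hG hS hl
  have hmono : ∀ u, Sealed G white (S.erase v₀) u → Sealed G white S u :=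
    fun u h => h.mono (Finset.erase_subset _ _)
  have hA : ((S.erase v₀).filter fun v => ¬ Sealed G white (S.erase v₀) v ∧ white v).card + 1 =
      (S.filter fun v => ¬ Sealed G white S v ∧ white v).card +
        (S.filter fun u => Lost G white S v₀ u ∧ white u).card := by
    rw [← Finset.card_union_of_disjoint]
    · have h1 : (S.filter fun v => ¬ Sealed G white S v ∧ white v) ∪
          (S.filter fun u => Lost G white S v₀ u ∧ white u) =
          insert v₀ ((S.erase v₀).filter fun v =>
            ¬ Sealed G white (S.erase v₀) v ∧ white v) := by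
        ext u
        simp only [Finset.mem_union, Finset.mem_filter, Finset.mem_insert, Finset.mem_erase]
        unfold Lost
        by_cases h : u = v₀
        · subst h
          simp [hl.1, hns, hw]
        · have := hmono u
          tauto
      rw [h1, Finset.card_insert_of_notMem]
      simp
    · rw [Finset.disjoint_left]
      intro u h1 h2
      rw [Finset.mem_filter] at h1 h2
      exact h1.2.1 h2.2.1.2.2.1
  have hB : ((S.erase v₀).filter fun v => ¬ Sealed G white (S.erase v₀) v ∧ ¬ white v).card =
      (S.filter fun v => ¬ Sealed G white S v ∧ ¬ white v).card +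
        (S.filter fun u => Lost G white S v₀ u ∧ ¬ white u).card := by
    rw [← Finset.card_union_of_disjoint]
    · congr 1
      ext u
      simp only [Finset.mem_union, Finset.mem_filter, Finset.mem_erase]
      unfold Lost
      by_cases h : u = v₀
      · subst h
        simp [hw]
      · have := hmono u
        tauto
    · rw [Finset.disjoint_left]
      intro u h1 h2
      rw [Finset.mem_filter] at h1 h2
      exact h1.2.1 h2.2.1.2.2.1
  unfold value
  omega

theorem value_erase_le (hG : G.IsTree) (hS : Conn G S) (hl : IsLeaf G S v₀) (hw : white v₀) :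
    value G white (S.erase v₀) ≤ value G white S - 1 := by
  rw [value_erase hG hS hl hw]
  by_cases hL : ∃ u, Lost G white S v₀ u
  · obtain ⟨u, hu⟩ := hL
    obtain ⟨w, hwS, h1, h2⟩ := hS v₀ hl.1 u hu.1 hu.2.1.symm
    have hcr := (lost_spec hG hS hl hwS h1 hu).1
    have hb : ¬ white w := by
      have := hcr.1
      tauto
    have := lost_card (white := white) hG hS hl hwS h1
    simp only [hb, iff_false, not_not] at this
    omega
  · have e : (S.filter fun u => Lost G white S v₀ u ∧ white u) = ∅ := by
      rw [Finset.filter_eq_empty_iff]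
      intro u _ h
      exact hL ⟨u, h.1⟩
    rw [e, Finset.card_empty]
    omega

/-- If deleting the leaf `v₀` unseals something, then its neighbour `y₀` is not sealed. -/
theorem not_sealed_of_lost (hG : G.IsTree) (hS : Conn G S) (hl : IsLeaf G S v₀) (hy : y₀ ∈ S)
    (hadj : G.Adj v₀ y₀) {q : V} (hq : Lost G white S v₀ q) : ¬ Sealed G white S y₀ := by
  obtain ⟨_, hqy, _, y2, x2, r2, b2⟩ := lost_spec hG hS hl hy hadj hq
  obtain ⟨a, ha1, ha2⟩ := exists_closer hG hqy.symm
  intro hs
  rw [sealed_iff hG] at hs
  obtain ⟨y, x, y', x', s1, s2, s3⟩ := hs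
  have hne : y₀ ≠ v₀ := hadj.ne.symm
  have surv : ∀ {y x : V}, Ray G white S y x y₀ → Ray G white (S.erase v₀) y x y₀ := by
    intro y x h
    refine (ray_survives hS hl hy hadj hy hne h).resolve_right ?_
    rintro ⟨rfl, _⟩
    have := h.2
    rw [dist_self] at this
    omega
  have key : ∀ y x : V, Ray G white (S.erase v₀) y x y₀ → G.dist a y = G.dist y₀ y + 1 →
      False := by
    intro y x h1 h2
    have e1 := cross hG ha1 ha2 h2
    have e2 : G.dist y₀ y2 = G.dist a y2 + 1 := by
      have t : G.dist a y2 ≤ G.dist a q + G.dist q y2 := hG.connected.dist_triangle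
      have n := near hG ha1 y2
      omega
    have e3 := cross hG ha1 e2 h2
    refine hq.2.2.2 (sealed_of_rays hG (h1.passes hG ?_) r2 ?_)
    · rw [G.dist_comm (u := y) (v := q), e1, G.dist_comm (u := q) (v := y₀),
        G.dist_comm (u := y) (v := y₀)]
      omega
    · rw [G.dist_comm (u := y) (v := y2), e3, G.dist_comm (u := y2) (v := y₀), b2,
        G.dist_comm (u := y) (v := q), e1, G.dist_comm (u := q) (v := y₀)]
      omega
  rcases F1 hG ha1 y with h1 | h1
  · rcases F1 hG ha1 y' with h2 | h2
    · have t : G.dist y y' ≤ G.dist y a + G.dist a y' := hG.connected.dist_triangle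
      rw [G.dist_comm (u := y) (v := a)] at t
      rw [G.dist_comm (u := y) (v := y₀), G.dist_comm (u := y') (v := y₀)] at s3
      omega
    · exact key y' x' (surv s2) h2
  · exact key y x (surv s1) h1

end Leaf

section Count

variable {S : Finset V}

/-- A blocked edge points to `u` from the direction of its neighbour `c`. -/
def In (G : SimpleGraph V) (white : V → Prop) (S : Finset V) (u c : V) : Prop :=
  ∃ y x, Ray G white S y x u ∧ G.dist u y = G.dist c y + 1

theorem in_unique (hG : G.IsTree) {u c c' : V} (hu : ¬ Sealed G white S u) (h : G.Adj u c)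
    (h' : G.Adj u c') (hc : In G white S u c) (hc' : In G white S u c') : c = c' := by
  by_contra hne
  obtain ⟨y, x, r1, d1⟩ := hc
  obtain ⟨y', x', r2, d2⟩ := hc'
  have h3 : G.dist c y' = G.dist u y' + 1 := by
    rcases F1 hG h y' with h1 | h1
    · exact absurd (F3 hG h h' h1 d2) hne
    · exact h1
  exact hu (sealed_of_rays hG r1 r2 (cross hG h d1 h3))

theorem in_of_sealed (hG : G.IsTree) {u c : V} (h : G.Adj u c) (hc : Sealed G white S c) :
    In G white S u c := by
  rw [sealed_iff hG] at hc
  obtain ⟨y, x, y', x', r1, r2, d⟩ := hc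
  have key : ∀ y x : V, Ray G white S y x c → G.dist u y = G.dist c y + 1 →
      In G white S u c := by
    intro y x r h1
    refine ⟨y, x, r.passes hG ?_, h1⟩
    rw [G.dist_comm (u := y) (v := u), h1, G.dist_comm (u := y) (v := c),
      dist_eq_one_iff_adj.2 h.symm]
  rcases F1 hG h y with h1 | h1
  · exact key y x r1 h1
  · rcases F1 hG h y' with h2 | h2
    · exact key y' x' r2 h2
    · exfalso
      have t : G.dist y y' ≤ G.dist y u + G.dist u y' := hG.connected.dist_triangle
      rw [G.dist_comm (u := y) (v := u)] at t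
      rw [G.dist_comm (u := y) (v := c), G.dist_comm (u := y') (v := c)] at d
      omega

theorem subtree_white (hG : G.IsTree) (hS : Conn G S) {u c : V} (hu : u ∈ S) (hc : c ∈ S)
    (h : G.Adj u c) (wu : white u) (wc : white c) (hin : ¬ In G white S u c) (n : ℕ) :
    ∀ w ∈ S, G.dist c w = n → G.dist u w = G.dist c w + 1 → white w := by
  induction n using Nat.strong_induction_on with
  | _ n ih =>
    intro w hw hn hd
    by_cases hwc : w = c
    · rw [hwc]; exact wc
    · obtain ⟨p, hp, hwp, hpd⟩ := hS w hw c hc hwc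
      have hpd' : G.dist c w = G.dist c p + 1 := by
        rw [G.dist_comm (u := c) (v := w), G.dist_comm (u := c) (v := p)]; exact hpd
      have n1 : G.dist u w ≤ G.dist u p + 1 := by
        have := near hG hwp u
        rwa [G.dist_comm (u := w) (v := u), G.dist_comm (u := p) (v := u)] at this
      have n2 := near hG h p
      have hup : G.dist u p = G.dist c p + 1 := by omega
      have hwhp : white p := ih (G.dist c p) (by omega) p hp rfl hup
      -- the next vertex `t` towards `u`
      have hpu : p ≠ u := by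
        rintro rfl
        rw [dist_self] at hup
        omega
      obtain ⟨t, ht, hpt, htd⟩ := hS p hp u hu hpu
      have hwt : white t := by
        by_cases htu : t = u
        · rw [htu]; exact wu
        · have hpc : p ≠ c := by
            rintro rfl
            have e1 : G.dist t u = 0 := by
              have : G.dist p u = 1 := dist_eq_one_iff_adj.2 h.symm
              omega
            exact htu ((hG.connected.dist_eq_zero_iff).1 e1)
          obtain ⟨t', ht', hpt', htd'⟩ := hS p hp c hc hpc
          have e1 : G.dist u t' = G.dist c t' + 1 := by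
            have a1 : G.dist u p ≤ G.dist u t' + 1 := by
              have := near hG hpt' u
              rwa [G.dist_comm (u := p) (v := u), G.dist_comm (u := t') (v := u)] at this
            have a2 := near hG h t'
            rw [G.dist_comm (u := p) (v := c), G.dist_comm (u := t') (v := c)] at htd'
            omega
          have e2 : t' = t := by
            refine F3 hG hpt' hpt (a := u) ?_ htd
            rw [G.dist_comm (u := p) (v := u), G.dist_comm (u := t') (v := u), hup, e1]
            rw [G.dist_comm (u := p) (v := c), G.dist_comm (u := t') (v := c)] at htd'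
            omega
          rw [← e2]
          rw [G.dist_comm (u := p) (v := c), G.dist_comm (u := t') (v := c)] at htd'
          exact ih (G.dist c t') (by omega) t' ht' rfl e1
      by_contra hbw
      apply hin
      refine ⟨p, t, ⟨⟨hp, ht, hpt, by tauto, w, hw, hwp, by tauto⟩, htd⟩, ?_⟩
      exact hup

theorem good_leaf (hG : G.IsTree) (hS : Conn G S) {u c : V} (hu : u ∈ S) (hc : c ∈ S)
    (h : G.Adj u c) (wu : white u) (wc : white c) (hin : ¬ In G white S u c) :
    ∃ l, IsLeaf G S l ∧ white l ∧ ∀ v, ¬ Lost G white S l v := by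
  have hne : (S.filter fun w => G.dist u w = G.dist c w + 1).Nonempty := by
    refine ⟨c, Finset.mem_filter.2 ⟨hc, ?_⟩⟩
    rw [dist_self, dist_eq_one_iff_adj.2 h]
  obtain ⟨l, hl, hmax⟩ := Finset.exists_max_image _ (fun w => G.dist u w) hne
  rw [Finset.mem_filter] at hl
  have hcl : ∀ b ∈ S, G.Adj l b → G.dist l u = G.dist b u + 1 := by
    intro b hb hlb
    rcases F1 hG hlb u with h1 | h1
    · exact h1
    · exfalso
      have n1 : G.dist c b ≤ G.dist c l + 1 := by
        have := near hG hlb.symm c
        rwa [G.dist_comm (u := b) (v := c), G.dist_comm (u := l) (v := c)] at this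
      have n2 := near hG h b
      rw [G.dist_comm (u := b) (v := u), G.dist_comm (u := l) (v := u)] at h1
      have := hmax b (Finset.mem_filter.2 ⟨hb, by omega⟩)
      omega
  have hleaf : IsLeaf G S l := by
    refine ⟨hl.1, fun a ha b hb hla hlb => ?_⟩
    exact F3 hG hla hlb (hcl a ha hla) (hcl b hb hlb)
  have hwl := subtree_white hG hS hu hc h wu wc hin _ l hl.1 rfl hl.2
  refine ⟨l, hleaf, hwl, ?_⟩
  intro v hv
  -- the neighbour `t` of `l` towards `u`
  have hlu : l ≠ u := by
    rintro rfl
    have h2 := hl.2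
    rw [SimpleGraph.dist_self] at h2
    omega
  obtain ⟨t, ht, hlt, htd⟩ := hS l hl.1 u hu hlu
  have hwt : white t := by
    by_cases htu : t = u
    · rw [htu]; exact wu
    · have hlc : l ≠ c := by
        rintro rfl
        have e1 : G.dist t u = 0 := by
          have : G.dist l u = 1 := dist_eq_one_iff_adj.2 h.symm
          omega
        exact htu ((hG.connected.dist_eq_zero_iff).1 e1)
      obtain ⟨t', ht', hlt', htd'⟩ := hS l hl.1 c hc hlc
      have e2 : t' = t := hleaf.2 t' ht' t ht hlt' hlt
      subst e2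
      refine subtree_white hG hS hu hc h wu wc hin _ t' ht' rfl ?_
      have n2 := near hG h t'
      rw [G.dist_comm (u := l) (v := u), G.dist_comm (u := t') (v := u)] at htd
      rw [G.dist_comm (u := l) (v := c), G.dist_comm (u := t') (v := c)] at htd'
      omega
  have := (lost_spec hG hS hleaf ht hlt hv).1.1
  tauto

theorem count_le (hG : G.IsTree) (hS : Conn G S) (Par : V → V → Prop)
    (P1 : ∀ u ∈ S, ¬ Sealed G white S u → ∀ a b, G.Adj u a → G.Adj u b → Par u a → Par u b →
      a = b)
    (P2 : ∀ u ∈ S, ¬ Sealed G white S u → ∀ c ∈ S, G.Adj u c → ¬ Par u c →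
      ¬ In G white S u c)
    (P3 : ∀ u ∈ S, ∀ c ∈ S, G.Adj u c → ¬ Par u c → Par c u)
    (hno : ∀ l, IsLeaf G S l → white l → ∃ v, Lost G white S l v) :
    (S.filter fun v => ¬ Sealed G white S v ∧ white v).card ≤
      (S.filter fun v => ¬ Sealed G white S v ∧ ¬ white v).card := by
  refine Finset.card_le_card_of_forall_subsingleton
    (fun u c => G.Adj u c ∧ (¬ Par u c ∨ Crit G white S u c)) ?_ ?_
  · intro u hu
    rw [Finset.mem_filter] at hu
    obtain ⟨huS, hus, hwu⟩ := hu
    by_cases h : ∃ c ∈ S, G.Adj u c ∧ ¬ Par u c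
    · obtain ⟨c, hc, huc, hpar⟩ := h
      have hin := P2 u huS hus c hc huc hpar
      refine ⟨c, Finset.mem_filter.2 ⟨hc, fun hsc => hin (in_of_sealed hG huc hsc), ?_⟩, huc,
        Or.inl hpar⟩
      intro hwc
      obtain ⟨l, h1, h2, h3⟩ := good_leaf hG hS huS hc huc hwu hwc hin
      obtain ⟨v, hv⟩ := hno l h1 h2
      exact h3 v hv
    · push Not at h
      have hleaf : IsLeaf G S u :=
        ⟨huS, fun a ha b hb h1 h2 => P1 u huS hus a b h1 h2 (h a ha h1) (h b hb h2)⟩
      obtain ⟨v, hv⟩ := hno u hleaf hwu
      obtain ⟨w, hwS, h1, h2⟩ := hS u huS v hv.1 hv.2.1.symm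
      have hcr := (lost_spec hG hS hleaf hwS h1 hv).1
      refine ⟨w, Finset.mem_filter.2 ⟨hwS, not_sealed_of_lost hG hS hleaf hwS h1 hv, ?_⟩, h1,
        Or.inr hcr⟩
      have := hcr.1
      tauto
  · intro c hc u hu u' hu'
    simp only [Set.mem_ofPred_eq, Finset.mem_filter] at hu hu'
    simp only [Finset.mem_filter] at hc
    obtain ⟨⟨huS, hus, hwu⟩, hadj, h⟩ := hu
    obtain ⟨⟨huS', hus', hwu'⟩, hadj', h'⟩ := hu'
    by_contra hne
    rcases h with h | h
    · rcases h' with h' | h'
      · exact hne (P1 c hc.1 hc.2.1 u u' hadj.symm hadj'.symm (P3 u huS c hc.1 hadj h)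
          (P3 u' huS' c hc.1 hadj' h'))
      · have := h'.2 u huS hadj hne
        tauto
    · have := h.2 u' huS' hadj' (Ne.symm hne)
      tauto

theorem tight (hG : G.IsTree) (hS : Conn G S) (hpos : 0 < value G white S) :
    ∃ l, IsLeaf G S l ∧ white l ∧ value G white (S.erase l) = value G white S - 1 := by
  by_contra hcon
  push Not at hcon
  have hno : ∀ l, IsLeaf G S l → white l → ∃ v, Lost G white S l v := by
    intro l h1 h2
    by_contra hL
    apply hcon l h1 h2
    rw [value_erase hG hS h1 h2]
    have e : (S.filter fun u => Lost G white S l u ∧ white u) = ∅ := by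
      rw [Finset.filter_eq_empty_iff]
      intro u _ h
      exact hL ⟨u, h.1⟩
    have e' : (S.filter fun u => Lost G white S l u ∧ ¬ white u) = ∅ := by
      rw [Finset.filter_eq_empty_iff]
      intro u _ h
      exact hL ⟨u, h.1⟩
    rw [e, e', Finset.card_empty]
    omega
  have hle : (S.filter fun v => ¬ Sealed G white S v ∧ white v).card ≤
      (S.filter fun v => ¬ Sealed G white S v ∧ ¬ white v).card := by
    by_cases hZ : ∃ r ∈ S, ∀ y x, ¬ Ray G white S y x r
    · obtain ⟨r, hr, hZ⟩ := hZ
      refine count_le hG hS (fun u a => G.dist u r = G.dist a r + 1) ?_ ?_ ?_ hno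
      · intro u _ _ a b h1 h2 h3 h4
        exact F3 hG h1 h2 h3 h4
      · intro u _ _ c _ huc hpar hin
        obtain ⟨y, x, ry, hd⟩ := hin
        have h1 : G.dist c r = G.dist u r + 1 := (F1 hG huc r).resolve_left hpar
        exact hZ y x (ry.passes hG (cross hG huc hd h1))
      · intro u _ c _ huc hpar
        exact (F1 hG huc r).resolve_left hpar
    · push Not at hZ
      refine count_le hG hS (fun u a => In G white S u a) ?_ ?_ ?_ hno
      · intro u _ hus a b h1 h2 h3 h4
        exact in_unique hG hus h1 h2 h3 h4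
      · intro u _ _ c _ _ hpar
        exact hpar
      · intro u _ c hc huc hpar
        obtain ⟨y, x, ry⟩ := hZ c hc
        rcases F1 hG huc y with h1 | h1
        · exfalso
          apply hpar
          refine ⟨y, x, ry.passes hG ?_, h1⟩
          rw [G.dist_comm (u := y) (v := u), h1, G.dist_comm (u := y) (v := c),
            dist_eq_one_iff_adj.2 huc.symm]
        · exact ⟨y, x, ry, h1⟩
  unfold value at hpos
  omega

end Count

/-! ### The game -/

section IntGames

variable {α β : Type} {L : α → PG} {R : β → PG}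

theorem le_int_left (m : ℤ) : Le (intGame m) (.mk α β L R) ↔
    (0 < m → Lf (intGame (m - 1)) (.mk α β L R)) ∧ ∀ j, Lf (intGame m) (R j) := by
  rcases m with n | n
  · rcases n with _ | n
    · change Le (.mk Empty Empty Empty.elim Empty.elim) _ ↔ _
      rw [le_mk]
      refine and_congr ?_ Iff.rfl
      constructor
      · intro _ h
        exact absurd h (by simp)
      · intro _ i
        exact i.elim
    · change Le (.mk Unit Empty (fun _ => natGame n) Empty.elim) _ ↔ _
      rw [le_mk]
      refine and_congr ?_ Iff.rfl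
      have e : (Int.ofNat (n + 1) - 1 : ℤ) = Int.ofNat n := by simp
      rw [e]
      constructor
      · intro h _
        exact h ()
      · intro h _
        exact h (by simp)
  · change Le (.mk Empty Unit Empty.elim (fun _ => negGame n)) _ ↔ _
    rw [le_mk]
    refine and_congr ?_ Iff.rfl
    constructor
    · intro _ h
      exact absurd h (by simp)
    · intro _ i
      exact i.elim

theorem lf_int_left (m : ℤ) : Lf (intGame m) (.mk α β L R) ↔
    (∃ i, Le (intGame m) (L i)) ∨ (m < 0 ∧ Le (intGame (m + 1)) (.mk α β L R)) := by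
  rcases m with n | n
  · rcases n with _ | n
    · change Lf (.mk Empty Empty Empty.elim Empty.elim) _ ↔ _
      rw [lf_mk]
      refine or_congr Iff.rfl ?_
      constructor
      · rintro ⟨j, _⟩
        exact j.elim
      · rintro ⟨h, _⟩
        exact absurd h (by simp)
    · change Lf (.mk Unit Empty (fun _ => natGame n) Empty.elim) _ ↔ _
      rw [lf_mk]
      refine or_congr Iff.rfl ?_
      constructor
      · rintro ⟨j, _⟩
        exact j.elim
      · rintro ⟨h, _⟩
        exact absurd h (by simp; omega)
  · change Lf (.mk Empty Unit Empty.elim (fun _ => negGame n)) _ ↔ _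
    rw [lf_mk]
    refine or_congr Iff.rfl ?_
    have e : intGame (Int.negSucc n + 1) = negGame n := by
      rcases n with _ | n
      · rfl
      · rfl
    rw [e]
    constructor
    · rintro ⟨_, h⟩
      exact ⟨by simp, h⟩
    · rintro ⟨_, h⟩
      exact ⟨(), h⟩

theorem le_int_right (m : ℤ) : Le (.mk α β L R) (intGame m) ↔
    (∀ i, Lf (L i) (intGame m)) ∧ (m < 0 → Lf (.mk α β L R) (intGame (m + 1))) := by
  rcases m with n | n
  · rcases n with _ | n
    · change Le _ (.mk Empty Empty Empty.elim Empty.elim) ↔ _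
      rw [le_mk]
      refine and_congr Iff.rfl ?_
      constructor
      · intro _ h
        exact absurd h (by simp)
      · intro _ i
        exact i.elim
    · change Le _ (.mk Unit Empty (fun _ => natGame n) Empty.elim) ↔ _
      rw [le_mk]
      refine and_congr Iff.rfl ?_
      constructor
      · intro _ h
        exact absurd h (by simp; omega)
      · intro _ i
        exact i.elim
  · change Le _ (.mk Empty Unit Empty.elim (fun _ => negGame n)) ↔ _
    rw [le_mk]
    refine and_congr Iff.rfl ?_
    have e : intGame (Int.negSucc n + 1) = negGame n := by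
      rcases n with _ | n
      · rfl
      · rfl
    rw [e]
    constructor
    · intro h _
      exact h ()
    · intro h _
      exact h (by simp)

theorem lf_int_right (m : ℤ) : Lf (.mk α β L R) (intGame m) ↔
    (0 < m ∧ Le (.mk α β L R) (intGame (m - 1))) ∨ (∃ j, Le (R j) (intGame m)) := by
  rcases m with n | n
  · rcases n with _ | n
    · change Lf _ (.mk Empty Empty Empty.elim Empty.elim) ↔ _
      rw [lf_mk]
      refine or_congr ?_ Iff.rfl
      constructor
      · rintro ⟨j, _⟩
        exact j.elim
      · rintro ⟨h, _⟩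
        exact absurd h (by simp)
    · change Lf _ (.mk Unit Empty (fun _ => natGame n) Empty.elim) ↔ _
      rw [lf_mk]
      refine or_congr ?_ Iff.rfl
      have e : (Int.ofNat (n + 1) - 1 : ℤ) = Int.ofNat n := by simp
      rw [e]
      constructor
      · rintro ⟨_, h⟩
        exact ⟨by simp, h⟩
      · rintro ⟨_, h⟩
        exact ⟨(), h⟩
  · change Lf _ (.mk Empty Unit Empty.elim (fun _ => negGame n)) ↔ _
    rw [lf_mk]
    refine or_congr ?_ Iff.rfl
    constructor
    · rintro ⟨j, _⟩
      exact j.elim
    · rintro ⟨h, _⟩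
      exact absurd h (by simp)

end IntGames

theorem isLeaf_value_gt (hG : G.IsTree) {S : Finset V} {l : V} (hS : Conn G S)
    (hl : IsLeaf G S l) (hw : ¬ white l) :
    value G white S + 1 ≤ value G white (S.erase l) := by
  have := value_erase_le (white := fun v => ¬ white v) hG hS hl hw
  rw [value_compl, value_compl] at this
  omega

theorem tight_black (hG : G.IsTree) {S : Finset V} (hS : Conn G S)
    (hneg : value G white S < 0) :
    ∃ l, IsLeaf G S l ∧ ¬ white l ∧ value G white (S.erase l) = value G white S + 1 := by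
  obtain ⟨l, h1, h2, h3⟩ := tight (white := fun v => ¬ white v) hG hS (by
    rw [value_compl]; omega)
  rw [value_compl, value_compl] at h3
  exact ⟨l, h1, h2, by omega⟩

theorem game_value (hG : G.IsTree) (n : ℕ) : ∀ S : Finset V, S.card = n → Conn G S →
    ∀ k : ℕ, ∀ m : ℤ, m.natAbs = k →
      (Le (intGame m) (leafGame G white S) ↔ m ≤ value G white S) ∧
      (Lf (intGame m) (leafGame G white S) ↔ m < value G white S) ∧
      (Le (leafGame G white S) (intGame m) ↔ value G white S ≤ m) ∧
      (Lf (leafGame G white S) (intGame m) ↔ value G white S < m) := by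
  induction n using Nat.strong_induction_on with
  | _ n ihn =>
    intro S hSn hS k
    -- the options
    have opt : ∀ v, IsLeaf G S v → ∀ m : ℤ,
        (Le (intGame m) (leafGame G white (S.erase v)) ↔ m ≤ value G white (S.erase v)) ∧
        (Lf (intGame m) (leafGame G white (S.erase v)) ↔ m < value G white (S.erase v)) ∧
        (Le (leafGame G white (S.erase v)) (intGame m) ↔ value G white (S.erase v) ≤ m) ∧
        (Lf (leafGame G white (S.erase v)) (intGame m) ↔ value G white (S.erase v) < m) := by
      intro v hv m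
      have hc : (S.erase v).card < n := by
        rw [← hSn]; exact Finset.card_erase_lt_of_mem hv.1
      exact ihn _ hc _ rfl (conn_erase hS hv) _ m rfl
    induction k using Nat.strong_induction_on with
    | _ k ihk =>
      intro m hm
      have hw : ∀ v, IsLeaf G S v → white v →
          value G white (S.erase v) ≤ value G white S - 1 := fun v h1 h2 =>
        value_erase_le hG hS h1 h2
      have hb : ∀ v, IsLeaf G S v → ¬ white v →
          value G white S + 1 ≤ value G white (S.erase v) := fun v h1 h2 =>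
        isLeaf_value_gt hG hS h1 h2
      have hdef : leafGame G white S = .mk {v // IsLeaf G S v ∧ white v}
          {v // IsLeaf G S v ∧ ¬ white v} (fun v => leafGame G white (S.erase v.1))
          (fun v => leafGame G white (S.erase v.1)) := by
        rw [leafGame]
      refine ⟨?_, ?_, ?_, ?_⟩
      · rw [hdef, le_int_left, ← hdef]
        constructor
        · rintro ⟨h1, h2⟩
          by_contra hlt
          rcases lt_or_ge 0 m with h0 | h0
          · have := (ihk (m - 1).natAbs (by omega) (m - 1) rfl).2.1.1 (h1 h0)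
            omega
          · obtain ⟨l, a1, a2, a3⟩ := tight_black (white := white) hG hS (by omega)
            have := (opt l a1 m).2.1.1 (h2 ⟨l, a1, a2⟩)
            omega
        · intro h
          refine ⟨fun h0 => ?_, fun j => ?_⟩
          · exact (ihk (m - 1).natAbs (by omega) (m - 1) rfl).2.1.2 (by omega)
          · have := hb j.1 j.2.1 j.2.2
            exact (opt j.1 j.2.1 m).2.1.2 (by omega)
      · rw [hdef, lf_int_left, ← hdef]
        constructor
        · rintro (⟨i, hi⟩ | ⟨h0, h1⟩)
          · have a := hw i.1 i.2.1 i.2.2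
            have := (opt i.1 i.2.1 m).1.1 hi
            omega
          · have := (ihk (m + 1).natAbs (by omega) (m + 1) rfl).1.1 h1
            omega
        · intro h
          rcases lt_or_ge m 0 with h0 | h0
          · exact Or.inr ⟨h0, (ihk (m + 1).natAbs (by omega) (m + 1) rfl).1.2 (by omega)⟩
          · obtain ⟨l, a1, a2, a3⟩ := tight (white := white) hG hS (by omega)
            exact Or.inl ⟨⟨l, a1, a2⟩, (opt l a1 m).1.2 (by omega)⟩
      · rw [hdef, le_int_right, ← hdef]
        constructor
        · rintro ⟨h1, h2⟩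
          by_contra hlt
          rcases lt_or_ge m 0 with h0 | h0
          · have := (ihk (m + 1).natAbs (by omega) (m + 1) rfl).2.2.2.1 (h2 h0)
            omega
          · obtain ⟨l, a1, a2, a3⟩ := tight (white := white) hG hS (by omega)
            have := (opt l a1 m).2.2.2.1 (h1 ⟨l, a1, a2⟩)
            omega
        · intro h
          refine ⟨fun i => ?_, fun h0 => ?_⟩
          · have := hw i.1 i.2.1 i.2.2
            exact (opt i.1 i.2.1 m).2.2.2.2 (by omega)
          · exact (ihk (m + 1).natAbs (by omega) (m + 1) rfl).2.2.2.2 (by omega)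
      · rw [hdef, lf_int_right, ← hdef]
        constructor
        · rintro (⟨h0, h1⟩ | ⟨j, hj⟩)
          · have := (ihk (m - 1).natAbs (by omega) (m - 1) rfl).2.2.1.1 h1
            omega
          · have a := hb j.1 j.2.1 j.2.2
            have := (opt j.1 j.2.1 m).2.2.1.1 hj
            omega
        · intro h
          rcases lt_or_ge 0 m with h0 | h0
          · exact Or.inl ⟨h0, (ihk (m - 1).natAbs (by omega) (m - 1) rfl).2.2.1.2 (by omega)⟩
          · obtain ⟨l, a1, a2, a3⟩ := tight_black (white := white) hG hS (by omega)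
            exact Or.inr ⟨⟨l, a1, a2⟩, (opt l a1 m).2.2.1.2 (by omega)⟩

end Tree

/-- **Main theorem.** For every finite tree with an arbitrary colouring, the value of the
leaf-removal game is the number of white vertices minus the number of black vertices among the
vertices which are not sealed. -/
theorem result {V : Type} [Fintype V] (T : SimpleGraph V) (hT : T.IsTree) (white : V → Prop) :
    Equal (leafGame T white Finset.univ)
      (intGame (((Finset.univ.filter fun v => ¬ Sealed T white Finset.univ v ∧ white v).card : ℤ) -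
        (Finset.univ.filter fun v => ¬ Sealed T white Finset.univ v ∧ ¬ white v).card)) := by
  have h := game_value (white := white) hT _ Finset.univ rfl (conn_univ hT) _
    (value T white Finset.univ) rfl
  exact ⟨h.2.2.1.2 le_rfl, h.1.2 le_rfl⟩

end Pool.Agent.Results.MP_1304b2_co.SealedFormula
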